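import Pool.Agent.Helper69.UX.StA

set_option autoImplicit false

/-!
Module SET: sets with small blocks.
-/

namespace Pool.Agent.Helper95.UX

open Finset Filter Pool.Agent.Helper82.CN Pool.Agent.Helper11.PV Pool.Agent.Helper69.VX
open Pool.Agent.Helper69.UX

private theorem choose_bd (N d : ℕ) (hdN : d ≤ N) (hN : 1 ≤ N) : ∀ z : ℕ, z ≤ d →
    ((N - z).choose (d - z) : ℝ) ≤ (N.choose d : ℝ) * ((d : ℝ) / N) ^ z := by
  intro z
  induction z with
  | zero => intro _; simp
  | succ z ih =>
    intro hz
    have h1 := ih (by omega)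
    have hN0 : (0 : ℝ) < N := by exact_mod_cast hN
    have h2 : (N - z) * (N - (z + 1)).choose (d - (z + 1)) = (N - z).choose (d - z) * (d - z) := by
      have h3 := Nat.add_one_mul_choose_eq (N - (z + 1)) (d - (z + 1))
      have e1 : N - (z + 1) + 1 = N - z := by omega
      have e2 : d - (z + 1) + 1 = d - z := by omega
      rw [e1, e2] at h3
      exact h3
    have h4 : ((N - z : ℕ) : ℝ) * ((N - (z + 1)).choose (d - (z + 1)) : ℝ) =
        ((N - z).choose (d - z) : ℝ) * ((d - z : ℕ) : ℝ) := by exact_mod_cast h2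
    have h5 : (0 : ℝ) < ((N - z : ℕ) : ℝ) := by
      have : 0 < N - z := by omega
      exact_mod_cast this
    have h6 : ((d - z : ℕ) : ℝ) * N ≤ d * ((N - z : ℕ) : ℝ) := by
      rw [Nat.cast_sub (by omega), Nat.cast_sub (by omega)]
      have : (z : ℝ) * d ≤ z * N := mul_le_mul_of_nonneg_left (by exact_mod_cast hdN) (Nat.cast_nonneg z)
      nlinarith
    have h7 : ((N - (z + 1)).choose (d - (z + 1)) : ℝ) ≤
        ((N - z).choose (d - z) : ℝ) * ((d : ℝ) / N) := by
      have h8 : ((N - (z + 1)).choose (d - (z + 1)) : ℝ) =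
          ((N - z).choose (d - z) : ℝ) * (((d - z : ℕ) : ℝ) / ((N - z : ℕ) : ℝ)) := by
        rw [mul_div_assoc', ← h4]
        field_simp
      rw [h8]
      refine mul_le_mul_of_nonneg_left ?_ (Nat.cast_nonneg _)
      rw [div_le_div_iff₀ h5 hN0]
      exact h6
    calc ((N - (z + 1)).choose (d - (z + 1)) : ℝ)
        ≤ ((N - z).choose (d - z) : ℝ) * ((d : ℝ) / N) := h7
      _ ≤ ((N.choose d : ℝ) * ((d : ℝ) / N) ^ z) * ((d : ℝ) / N) :=
          mul_le_mul_of_nonneg_right h1 (by positivity)
      _ = (N.choose d : ℝ) * ((d : ℝ) / N) ^ (z + 1) := by ring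

private theorem count_bd {n : ℕ} (U Z : Finset (Fin n)) (d : ℕ) (hdU : d ≤ U.card)
    (hU : 1 ≤ U.card) (hZ : Z ⊆ U) :
    (((U.powersetCard d).filter (fun S => Z ⊆ S)).card : ℝ) ≤
      (U.card.choose d : ℝ) * ((d : ℝ) / U.card) ^ Z.card := by
  by_cases hz : Z.card ≤ d
  · refine le_trans ?_ (choose_bd U.card d hdU hU Z.card hz)
    have h1 : ((U.powersetCard d).filter (fun S => Z ⊆ S)).card ≤
        ((U \ Z).powersetCard (d - Z.card)).card := by
      refine card_le_card_of_injOn (fun S => S \ Z) ?_ ?_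
      · intro S hS
        have hS' := mem_filter.1 (mem_coe.1 hS)
        have hS1 := mem_powersetCard.1 hS'.1
        refine mem_coe.2 (mem_powersetCard.2 ⟨sdiff_subset_sdiff hS1.1 le_rfl, ?_⟩)
        rw [card_sdiff_of_subset hS'.2, hS1.2]
      · intro S hS T hT hST
        have hS := mem_filter.1 (mem_coe.1 hS)
        have hT := mem_filter.1 (mem_coe.1 hT)
        have h2 : S \ Z = T \ Z := hST
        rw [← sdiff_union_of_subset hS.2, ← sdiff_union_of_subset hT.2, h2]
    rw [card_powersetCard, card_sdiff_of_subset hZ] at h1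
    exact_mod_cast h1
  · have h1 : (U.powersetCard d).filter (fun S => Z ⊆ S) = ∅ := by
      rw [filter_eq_empty_iff]
      intro S hS hZS
      rw [mem_powersetCard] at hS
      exact hz (hS.2 ▸ card_le_card hZS)
    rw [h1]
    simp only [card_empty, Nat.cast_zero]
    positivity

/-- the admissible blocks of the cell `A` -/
private def FA {n : ℕ} (R : ℕ) (A : Finset (Fin n)) : Finset (Finset (Fin n)) :=
  A.powerset.filter (fun B => B.card ≤ R ∧ B.card ≠ 1)

private theorem one_cell {n : ℕ} (R : ℕ) (ws : ℝ) (hws : 1 ≤ ws) (A S : Finset (Fin n))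
    (hS : (S ∩ A).card ≤ R) :
    ws ^ ((S ∩ A).card.choose 2) ≤
      ∑ B ∈ (FA R A).filter (fun B => B ⊆ S), ws ^ (B.card.choose 2) := by
  have h0 : ∀ B : Finset (Fin n), (0 : ℝ) ≤ ws ^ (B.card.choose 2) := fun B => by positivity
  by_cases h1 : (S ∩ A).card = 1
  · rw [h1]
    have hmem : (∅ : Finset (Fin n)) ∈ (FA R A).filter (fun B => B ⊆ S) := by
      simp [FA]
    have := single_le_sum (f := fun B : Finset (Fin n) => ws ^ (B.card.choose 2))
      (fun B _ => h0 B) hmem
    simpa using this
  · have hmem : S ∩ A ∈ (FA R A).filter (fun B => B ⊆ S) := by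
      simp only [FA, mem_filter, mem_powerset]
      exact ⟨⟨inter_subset_right, hS, h1⟩, inter_subset_left⟩
    exact single_le_sum (f := fun B : Finset (Fin n) => ws ^ (B.card.choose 2))
      (fun B _ => h0 B) hmem

private theorem cell_sum {n : ℕ} (R : ℕ) (ws θ : ℝ) (hws : 1 ≤ ws) (hθ : 0 ≤ θ)
    (A : Finset (Fin n)) :
    ∑ B ∈ FA R A, ws ^ (B.card.choose 2) * θ ^ B.card ≤
      1 + ∑ r ∈ Icc 2 R, (A.card.choose r : ℝ) * ws ^ (r.choose 2) * θ ^ r := by
  have hmaps : ∀ B ∈ FA R A, B.card ∈ insert 0 (Icc 2 R) := by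
    intro B hB
    simp only [FA, mem_filter, mem_powerset] at hB
    rw [mem_insert, mem_Icc]
    omega
  rw [← sum_fiberwise_of_maps_to hmaps, sum_insert (by simp)]
  refine add_le_add ?_ ?_
  · have h1 : (FA R A).filter (fun B => B.card = 0) ⊆ {∅} := by
      intro B hB
      rw [mem_filter] at hB
      rw [mem_singleton]
      exact card_eq_zero.1 hB.2
    calc ∑ B ∈ (FA R A).filter (fun B => B.card = 0), ws ^ (B.card.choose 2) * θ ^ B.card
        ≤ ∑ B ∈ ({∅} : Finset (Finset (Fin n))), ws ^ (B.card.choose 2) * θ ^ B.card :=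
          sum_le_sum_of_subset_of_nonneg h1 fun B _ _ => by positivity
      _ = 1 := by simp
  · refine sum_le_sum fun r hr => ?_
    have h1 : (FA R A).filter (fun B => B.card = r) ⊆ A.powersetCard r := by
      intro B hB
      simp only [FA, mem_filter, mem_powerset] at hB
      rw [mem_powersetCard]
      exact ⟨hB.1.1, hB.2⟩
    calc ∑ B ∈ (FA R A).filter (fun B => B.card = r), ws ^ (B.card.choose 2) * θ ^ B.card
        ≤ ∑ B ∈ A.powersetCard r, ws ^ (B.card.choose 2) * θ ^ B.card :=
          sum_le_sum_of_subset_of_nonneg h1 fun B _ _ => by positivity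
      _ = ∑ _B ∈ A.powersetCard r, ws ^ (r.choose 2) * θ ^ r := by
          refine sum_congr rfl fun B hB => ?_
          rw [(mem_powersetCard.1 hB).2]
      _ = (A.card.choose r : ℝ) * ws ^ (r.choose 2) * θ ^ r := by
          rw [sum_const, card_powersetCard, nsmul_eq_mul]
          ring

private theorem main_ind {n : ℕ} (d R : ℕ) (ws : ℝ) (U : Finset (Fin n)) (hws : 1 ≤ ws)
    (hdU : d ≤ U.card) (hU : 1 ≤ U.card) (P : Finset (Finset (Fin n))) :
    (∀ A ∈ P, A ⊆ U) → (∀ A ∈ P, ∀ B ∈ P, A ≠ B → Disjoint A B) →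
    ∀ Z : Finset (Fin n), Z ⊆ U → (∀ A ∈ P, Disjoint A Z) →
    ∑ S ∈ (U.powersetCard d).filter (fun S => Z ⊆ S ∧ ∀ A ∈ P, (S ∩ A).card ≤ R),
      ws ^ (∑ A ∈ P, (S ∩ A).card.choose 2) ≤
    (U.card.choose d : ℝ) * ((d : ℝ) / U.card) ^ Z.card *
      ∏ A ∈ P, (1 + ∑ r ∈ Icc 2 R, (A.card.choose r : ℝ) *
        ws ^ (r.choose 2) * ((d : ℝ) / U.card) ^ r) := by
  classical
  induction P using Finset.induction_on with
  | empty =>
    intro _ _ Z hZ _
    simp only [sum_empty, pow_zero, prod_empty, mul_one, notMem_empty, false_implies,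
      implies_true, and_true, sum_const, nsmul_eq_mul]
    exact count_bd U Z d hdU hU hZ
  | insert A P hA ih =>
    intro hPU hdis Z hZ hZd
    have ih' := ih (fun B hB => hPU B (mem_insert_of_mem hB))
      (fun B hB C hC => hdis B (mem_insert_of_mem hB) C (mem_insert_of_mem hC))
    have hAU := hPU A (mem_insert_self _ _)
    have hθ : (0 : ℝ) ≤ (d : ℝ) / U.card := by positivity
    set θ : ℝ := (d : ℝ) / U.card with hθd
    set Pr : ℝ := ∏ A ∈ P, (1 + ∑ r ∈ Icc 2 R, (A.card.choose r : ℝ) *
        ws ^ (r.choose 2) * θ ^ r) with hPr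
    have hPr0 : 0 ≤ Pr := prod_nonneg fun A _ => by positivity
    calc ∑ S ∈ (U.powersetCard d).filter (fun S => Z ⊆ S ∧ ∀ A' ∈ insert A P, (S ∩ A').card ≤ R),
          ws ^ (∑ A' ∈ insert A P, (S ∩ A').card.choose 2)
        ≤ ∑ S ∈ (U.powersetCard d).filter
            (fun S => Z ⊆ S ∧ ∀ A' ∈ insert A P, (S ∩ A').card ≤ R),
            ∑ B ∈ (FA R A).filter (fun B => B ⊆ S), ws ^ (B.card.choose 2) *
              ws ^ (∑ A' ∈ P, (S ∩ A').card.choose 2) := by
          refine sum_le_sum fun S hS => ?_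
          rw [mem_filter] at hS
          rw [sum_insert hA, pow_add, ← sum_mul]
          exact mul_le_mul_of_nonneg_right
            (one_cell R ws hws A S (hS.2.2 A (mem_insert_self _ _))) (by positivity)
      _ = ∑ B ∈ FA R A, ∑ S ∈ ((U.powersetCard d).filter
            (fun S => Z ⊆ S ∧ ∀ A' ∈ insert A P, (S ∩ A').card ≤ R)).filter (fun S => B ⊆ S),
            ws ^ (B.card.choose 2) * ws ^ (∑ A' ∈ P, (S ∩ A').card.choose 2) := by
          refine sum_comm' fun S B => ?_
          simp only [mem_filter]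
          tauto
      _ ≤ ∑ B ∈ FA R A, ws ^ (B.card.choose 2) *
            ((U.card.choose d : ℝ) * θ ^ (Z ∪ B).card * Pr) := by
          refine sum_le_sum fun B hB => ?_
          rw [← mul_sum]
          refine mul_le_mul_of_nonneg_left ?_ (by positivity)
          have hBA : B ⊆ A := by
            simp only [FA, mem_filter, mem_powerset] at hB
            exact hB.1
          refine le_trans ?_ (ih' (Z ∪ B) (union_subset hZ (hBA.trans hAU)) ?_)
          · refine sum_le_sum_of_subset_of_nonneg ?_ fun S _ _ => by positivity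
            intro S hS
            simp only [mem_filter] at hS ⊢
            exact ⟨hS.1.1, union_subset hS.1.2.1 hS.2,
              fun A' hA' => hS.1.2.2 A' (mem_insert_of_mem hA')⟩
          · intro A' hA'
            rw [disjoint_union_right]
            refine ⟨hZd A' (mem_insert_of_mem hA'), ?_⟩
            have hne : A' ≠ A := fun h => hA (h ▸ hA')
            exact (hdis A' (mem_insert_of_mem hA') A (mem_insert_self _ _) hne).mono_right hBA
      _ = ((U.card.choose d : ℝ) * θ ^ Z.card * Pr) *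
            ∑ B ∈ FA R A, ws ^ (B.card.choose 2) * θ ^ B.card := by
          rw [mul_sum]
          refine sum_congr rfl fun B hB => ?_
          have hBA : B ⊆ A := by
            simp only [FA, mem_filter, mem_powerset] at hB
            exact hB.1
          have hd : Disjoint Z B :=
            ((hZd A (mem_insert_self _ _)).mono_left hBA).symm
          rw [card_union_of_disjoint hd, pow_add]
          ring
      _ ≤ ((U.card.choose d : ℝ) * θ ^ Z.card * Pr) *
            (1 + ∑ r ∈ Icc 2 R, (A.card.choose r : ℝ) * ws ^ (r.choose 2) * θ ^ r) :=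
          mul_le_mul_of_nonneg_left (cell_sum R ws θ hws hθ A) (by positivity)
      _ = (U.card.choose d : ℝ) * θ ^ Z.card *
            ∏ A' ∈ insert A P, (1 + ∑ r ∈ Icc 2 R, (A'.card.choose r : ℝ) *
              ws ^ (r.choose 2) * θ ^ r) := by
          rw [prod_insert hA]
          ring

theorem hSET : StSET := by
  intro n d R ws U P hws hdU hU hPU hdis
  have h := main_ind d R ws U hws hdU hU P hPU hdis ∅ (empty_subset _)
    (fun A _ => disjoint_empty_right A)
  simp only [empty_subset, true_and, card_empty, pow_zero, mul_one] at h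
  exact h

end Pool.Agent.Helper95.UX
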