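import Pool.Agent.Helper69.UX.StC

set_option autoImplicit false

/-!
Module SIZ: all facts about the sizes `T` and `n`.
-/

namespace Pool.Agent.Helper95.UX

open Finset Filter Pool.Agent.Helper82.CN Pool.Agent.Helper11.PV Pool.Agent.Helper69.VX
open Pool.Agent.Helper69.UX

private theorem ev_log (η c : ℝ) (hη : 0 < η) :
    ∀ᶠ x : ℝ in atTop, 2 * Real.log x + c ≤ η * x := by
  have h1 := Real.isLittleO_log_id_atTop.bound (c := η / 4) (by positivity)
  filter_upwards [h1, eventually_ge_atTop (c / (η / 2)), eventually_ge_atTop 0] with x hx hx2 hx0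
  rw [div_le_iff₀ (by positivity)] at hx2
  have h3 : Real.log x ≤ η / 4 * x := by
    have h4 : |Real.log x| ≤ η / 4 * |x| := by simpa using hx
    rw [abs_of_nonneg hx0] at h4
    exact (le_abs_self _).trans h4
  nlinarith

private theorem ev_pow (δ A : ℝ) (hδ : 0 < δ) (hA : 0 ≤ A) :
    ∀ᶠ x : ℝ in atTop, A * x ^ 8 ≤ Real.exp (δ * x) ∧ x ^ 8 ≤ Real.exp (δ * x) := by
  have h1 := (isLittleO_pow_exp_pos_mul_atTop 8 hδ).bound (c := (A + 1)⁻¹) (by positivity)
  filter_upwards [h1, eventually_ge_atTop 0] with x hx hx0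
  have h2 : x ^ 8 ≤ (A + 1)⁻¹ * Real.exp (δ * x) := by
    rw [Real.norm_eq_abs, Real.norm_eq_abs, abs_of_nonneg (by positivity), Real.abs_exp] at hx
    exact hx
  have he := Real.exp_pos (δ * x)
  have h3 : (A + 1) * x ^ 8 ≤ Real.exp (δ * x) := by
    have := mul_le_mul_of_nonneg_left h2 (by positivity : (0 : ℝ) ≤ A + 1)
    rwa [← mul_assoc, mul_inv_cancel₀ (by positivity), one_mul] at this
  have hx8 : 0 ≤ x ^ 8 := by positivity
  exact ⟨by nlinarith, by nlinarith⟩

private theorem ev_exp (A B : ℝ) (hA : 0 < A) :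
    ∀ᶠ x : ℝ in atTop, A * x + B ≤ Real.exp x := by
  have h1 := (isLittleO_pow_exp_pos_mul_atTop 1 one_pos).bound (c := (2 * A)⁻¹) (by positivity)
  filter_upwards [h1, eventually_ge_atTop 0, eventually_ge_atTop (2 * B)] with x hx hx0 hxB
  have h2 : x ≤ (2 * A)⁻¹ * Real.exp x := by
    rw [Real.norm_eq_abs, Real.norm_eq_abs, pow_one, one_mul, abs_of_nonneg hx0,
      Real.abs_exp] at hx
    exact hx
  have h3 : 2 * A * x ≤ Real.exp x := by
    have := mul_le_mul_of_nonneg_left h2 (by positivity : (0 : ℝ) ≤ 2 * A)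
    rwa [← mul_assoc, mul_inv_cancel₀ (by positivity), one_mul] at this
  have h4 := Real.add_one_le_exp x
  linarith

theorem hSIZ : StMkb → StSIZ := by
  intro hMkb p ε δ J hp hp2 hε hε1 hδ
  have hp1 : p < 1 := by
    have := Real.exp_pos 2
    have : (0 : ℝ) < 1 / Real.exp 2 := by positivity
    linarith
  have hL0 : 0 < bb p := by
    unfold bb
    apply Real.log_pos
    rw [lt_div_iff₀ (by linarith)]
    linarith
  have hL2 : bb p ≤ 2 := by
    unfold bb
    rw [Real.log_le_iff_le_exp (by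
      have : (0 : ℝ) < 1 - p := by linarith
      positivity)]
    rw [div_le_iff₀ (by linarith)]
    have h1 : 1 / Real.exp 2 ≤ 1 - p := by linarith
    rw [div_le_iff₀ (Real.exp_pos 2)] at h1
    linarith
  obtain ⟨η, hη⟩ : ∃ η : ℝ, η = min δ (1 / 4) := ⟨_, rfl⟩
  have hη0 : 0 < η := by rw [hη]; positivity
  have hηδ : η ≤ δ := by rw [hη]; exact min_le_left _ _
  have hη4 : η ≤ 1 / 4 := by rw [hη]; exact min_le_right _ _
  obtain ⟨n1, hn1⟩ := hMkb p (J + 3) δ hp hp1 (by positivity) hδ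
  have hlog : Tendsto (fun n : ℕ => Real.log (n : ℝ)) atTop atTop :=
    Real.tendsto_log_atTop.comp tendsto_natCast_atTop_atTop
  have e1 := hlog.eventually (eventually_ge_atTop (1 / δ))
  have e2 := hlog.eventually (ev_log η (2 * |Real.log (bb p)| + 4) hη0)
  have e3 := hlog.eventually (ev_pow δ ((3 / bb p) ^ 8) hδ (by positivity))
  have e4 := hlog.eventually (eventually_ge_atTop ((J + 4) * 2 : ℝ))
  have e5 := hlog.eventually (ev_exp (3 / bb p) (J + 4) (by positivity))
  have e6 := hlog.eventually (eventually_gt_atTop (0 : ℝ))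
  obtain ⟨n2, hn2⟩ := eventually_atTop.1
    ((((((e1.and e2).and e3).and e4).and e5).and e6).and (eventually_ge_atTop 1))
  refine ⟨max n1 n2, ?_⟩
  intro n T th hn hW
  obtain ⟨⟨⟨⟨⟨⟨f1, f2⟩, f3⟩, f4⟩, f5⟩, f6⟩, f7⟩ := hn2 n (le_of_max_le_right hn)
  obtain ⟨w1, w2, w3⟩ := hW
  have hn0 : (0 : ℝ) < n := by exact_mod_cast f7
  have hth1 : th ≤ 1 := by linarith
  obtain ⟨lam, hlam⟩ : ∃ lam : ℝ, lam = Real.log (n : ℝ) := ⟨_, rfl⟩
  rw [← hlam] at f1 f2 f3 f4 f5 f6
  have hnexp : Real.exp lam = n := by rw [hlam]; exact Real.exp_log hn0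
  have hpow : (n : ℝ) ^ δ = Real.exp (δ * lam) := by
    rw [Real.rpow_def_of_pos hn0, mul_comm, ← hlam]
  have hlogd : Real.log (lam / bb p) = Real.log lam - Real.log (bb p) :=
    Real.log_div f6.ne' hL0.ne'
  -- the equation for `T`
  have hT : bb p * T = 2 * lam - 2 * (Real.log lam - Real.log (bb p)) +
      2 * (1 - Real.log 2) - bb p * th := by
    have h1 : Pool.Agent.Helper82.CN.al p n = (T : ℝ) + 1 + th := w1
    unfold Pool.Agent.Helper82.CN.al at h1
    rw [← hlam, hlogd] at h1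
    have h2 : bb p * (2 * lam / bb p - 2 * (Real.log lam - Real.log (bb p)) / bb p +
        2 * (1 - Real.log 2) / bb p + 1) = bb p * ((T : ℝ) + 1 + th) := by rw [h1]
    have h3 : bb p * (2 * lam / bb p - 2 * (Real.log lam - Real.log (bb p)) / bb p +
        2 * (1 - Real.log 2) / bb p + 1) = 2 * lam - 2 * (Real.log lam - Real.log (bb p)) +
        2 * (1 - Real.log 2) + bb p := by
      field_simp
    rw [h3] at h2
    linarith
  have hl2a : 0 < Real.log 2 := Real.log_pos (by norm_num)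
  have hl2b : Real.log 2 < 1 := by
    have := Real.log_two_lt_d9
    linarith
  have hlam1 : 1 ≤ lam := by
    have : (0 : ℝ) ≤ J := Nat.cast_nonneg J
    linarith
  have hll : 0 ≤ Real.log lam := Real.log_nonneg hlam1
  have habs1 := le_abs_self (Real.log (bb p))
  have habs2 := neg_abs_le (Real.log (bb p))
  have hLth0 : 0 ≤ bb p * th := by
    have : 0 ≤ th := by linarith
    positivity
  have hLth2 : bb p * th ≤ 2 := by
    have := mul_le_mul hL2 hth1 (by linarith) (by norm_num : (0 : ℝ) ≤ 2)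
    linarith
  have hη1 : |bb p * T - 2 * lam| ≤ η * lam := by
    rw [abs_le]
    constructor
    · rw [hT]
      linarith
    · rw [hT]
      linarith
  have h14 : |bb p * T - 2 * lam| ≤ lam / 4 := by
    have := mul_le_mul_of_nonneg_right hη4 f6.le
    linarith
  obtain ⟨g1, g2⟩ := abs_le.1 h14
  have hTlo : 7 / 4 * lam ≤ bb p * T := by linarith
  have hThi : bb p * T ≤ 3 * lam := by linarith
  have hTpos : 0 < (T : ℝ) := by
    by_contra h
    have := mul_nonpos_of_nonneg_of_nonpos hL0.le (not_lt.1 h)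
    linarith
  have hT3 : (T : ℝ) ≤ 3 / bb p * lam := by
    rw [div_mul_eq_mul_div, le_div_iff₀ hL0]
    linarith
  refine ⟨hlam ▸ f1, ?_, ?_, ?_, ⟨?_, ?_⟩, ?_, ?_⟩
  · rw [← hlam]
    refine hη1.trans ?_
    exact mul_le_mul_of_nonneg_right hηδ f6.le
  · -- t2
    rw [← hlam]
    have hx : Real.log (T : ℝ) = Real.log (bb p * T / (2 * lam)) + Real.log 2 + Real.log lam -
        Real.log (bb p) := by
      rw [Real.log_div (by positivity) (by positivity), Real.log_mul hL0.ne' hTpos.ne',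
        Real.log_mul (by norm_num) f6.ne']
      ring
    have hr0 : 0 < bb p * T / (2 * lam) := by positivity
    have hr1 : bb p * T / (2 * lam) ≤ 9 / 8 := by
      rw [div_le_iff₀ (by positivity)]
      linarith
    have hr2 : 7 / 8 ≤ bb p * T / (2 * lam) := by
      rw [le_div_iff₀ (by positivity)]
      linarith
    have hu : Real.log (bb p * T / (2 * lam)) ≤ 1 / 8 := by
      have := Real.log_le_sub_one_of_pos hr0
      linarith
    have hl : -(1 / 7) ≤ Real.log (bb p * T / (2 * lam)) := by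
      have h1 := Real.one_sub_inv_le_log_of_pos hr0
      have h2 : (bb p * T / (2 * lam))⁻¹ ≤ 8 / 7 := by
        rw [inv_le_comm₀ hr0 (by norm_num)]
        norm_num
        linarith
      linarith
    generalize Real.log (bb p * T / (2 * lam)) = y at hx hu hl
    rw [hx, hT, abs_le]
    constructor <;> linarith
  · rw [hpow]
    calc (T : ℝ) ^ 8 ≤ (3 / bb p * lam) ^ 8 := pow_le_pow_left₀ hTpos.le hT3 8
      _ = (3 / bb p) ^ 8 * lam ^ 8 := by ring
      _ ≤ Real.exp (δ * lam) := f3.1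
  · have h1 : (J + 4 : ℝ) ≤ T := by
      have h2 : 7 / 4 * lam ≤ 2 * T := hTlo.trans (mul_le_mul_of_nonneg_right hL2 hTpos.le)
      linarith
    exact_mod_cast h1
  · have h1 : (T : ℝ) + J + 4 ≤ n := by
      rw [← hnexp]
      linarith
    exact_mod_cast h1
  · intro k hk1 hk2
    have h1 := hn1 n k (le_of_max_le_left hn) (by
      have e : Pool.Agent.Helper82.CN.al p n = (T : ℝ) + 1 + th := w1
      rw [e]
      have k1 : (k : ℝ) ≤ T + J := by exact_mod_cast hk1
      have k2 : (T : ℝ) ≤ k + J := by exact_mod_cast hk2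
      rw [abs_le]
      constructor <;> linarith)
    have e : Pool.Agent.Helper82.CN.al p n = (T : ℝ) + 1 + th := w1
    rw [e] at h1
    exact h1
  · rw [hpow, ← hlam]
    exact f3.2

end Pool.Agent.Helper95.UX
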